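import Mathlib

/-!
# A non-nuclear Fréchet space with property spade

Main theorem `result`: over `𝕜 = ℝ` or `ℂ` there is a Fréchet space with property spade which is
not nuclear.

The space is the Koethe echelon space of order infinity with weights `(1 + log (j+1)) ^ k`.
If `Y` is a subspace of it and `g : Y → ℓ²` is bounded with respect to the `k`-th norm, then
Rademacher averages show that `g` is 2-summing with respect to the `(k+1)`-st norm, because the
sub-Gaussian tails beat the factor `1 + log (j+1)`. A Pietsch measure on the coordinates and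
the Hahn-Banach theorem then give extensions of `g` to every locally convex superspace of `Y`.
The space is not nuclear because `∑ (1 + log (j+1)) ^ (-m)` diverges for every `m`.
-/

set_option autoImplicit false
set_option synthInstance.maxHeartbeats 400000
set_option maxHeartbeats 4000000

open Filter Topology
open scoped ENNReal

universe u v

namespace Pool.Agent.Results.MP_e22ce5_an.NonNuclearSpade


/-- A Fréchet space over `𝕜`: a topological vector space which is locally convex (its topology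
is given by its continuous seminorms), metrizable and complete. -/
def IsFrechetSpace (𝕜 : Type) [RCLike 𝕜] (X : Type u) [AddCommGroup X] [Module 𝕜 X]
    [UniformSpace X] : Prop :=
  IsUniformAddGroup X ∧ ContinuousSMul 𝕜 X ∧ PolynormableSpace 𝕜 X ∧ CompleteSpace X ∧
    TopologicalSpace.MetrizableSpace X

/-- Every continuous linear map `g : A → Z` extends along `ι : A → B` to a continuous linear map
`f : B → Z`, that is `f (ι a) = g a` for all `a`. -/
def ExtendsAlong {𝕜 : Type} [RCLike 𝕜] {A : Type u} {B : Type v} [AddCommGroup A] [Module 𝕜 A]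
    [TopologicalSpace A] [AddCommGroup B] [Module 𝕜 B] [TopologicalSpace B] (ι : A →ₗ[𝕜] B)
    (Z : Type) [NormedAddCommGroup Z] [NormedSpace 𝕜 Z] : Prop :=
  ∀ g : A →L[𝕜] Z, ∃ f : B →L[𝕜] Z, ∀ a : A, f (ι a) = g a

/-- The two extension conditions on a Fréchet space `X`, for operators with values in `Z`.
1. For every linear subspace `Y` of `X` (induced topology) every continuous linear `g : Y → Z`
   extends to a continuous linear `f : X → Z`.
2. For every Fréchet space `W` containing `X` (via a linear topological embedding `ι`) every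
   continuous linear `g : X → Z` extends to a continuous linear `f : W → Z`. -/
def HasSpadeWithTarget (𝕜 : Type) [RCLike 𝕜] (X : Type u) [AddCommGroup X] [Module 𝕜 X]
    [UniformSpace X] (Z : Type) [NormedAddCommGroup Z] [NormedSpace 𝕜 Z] : Prop :=
  (∀ Y : Submodule 𝕜 X, ExtendsAlong Y.subtype Z) ∧
  (∀ (W : Type v) [AddCommGroup W] [Module 𝕜 W] [UniformSpace W], IsFrechetSpace 𝕜 W →
    ∀ ι : X →ₗ[𝕜] W, IsEmbedding ι → ExtendsAlong ι Z)

/-- Property spade of a Fréchet space `X`: conditions 1 and 2 with target `ℓ²`. -/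
def HasPropertySpade (𝕜 : Type) [RCLike 𝕜] (X : Type u) [AddCommGroup X] [Module 𝕜 X]
    [UniformSpace X] : Prop :=
  HasSpadeWithTarget.{u, v} 𝕜 X (lp (fun _ : ℕ => 𝕜) 2)

/-- A nuclear operator `T : E → F` between normed spaces: `T x = ∑ ξ_n(x) y_n` with continuous
functionals `ξ_n` and vectors `y_n` such that `∑ ‖ξ_n‖ ‖y_n‖ < ∞`. -/
def IsNuclearOperator {𝕜 : Type} [RCLike 𝕜] {E F : Type u} [NormedAddCommGroup E] [NormedSpace 𝕜 E]
    [NormedAddCommGroup F] [NormedSpace 𝕜 F] (T : E →L[𝕜] F) : Prop :=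
  ∃ (ξ : ℕ → StrongDual 𝕜 E) (y : ℕ → F), Summable (fun n => ‖ξ n‖ * ‖y n‖) ∧
    ∀ x, HasSum (fun n => ξ n x • y n) (T x)

/-- The linear map `φ : E → F` of seminormed spaces induces a nuclear operator between the
(Hausdorff) completions of `E` and `F`. -/
def InducesNuclear {𝕜 : Type} [RCLike 𝕜] {E F : Type u} [SeminormedAddCommGroup E]
    [NormedSpace 𝕜 E] [SeminormedAddCommGroup F] [NormedSpace 𝕜 F] (φ : E → F) : Prop :=
  ∃ T : UniformSpace.Completion E →L[𝕜] UniformSpace.Completion F,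
    (∀ x : E, T (x : UniformSpace.Completion E) = (φ x : UniformSpace.Completion F)) ∧
      IsNuclearOperator T

/-- `X` with the seminorm `p` is a seminormed space over `𝕜`. -/
@[reducible] def seminormedSpace {𝕜 : Type} [RCLike 𝕜] {X : Type u} [AddCommGroup X] [Module 𝕜 X]
    (p : Seminorm 𝕜 X) : @NormedSpace 𝕜 X _ p.toSeminormedAddCommGroup :=
  @NormedSpace.mk 𝕜 X _ p.toSeminormedAddCommGroup _ (fun a x => (map_smul_eq_mul p a x).le)

/-- `X` is nuclear in Grothendieck's sense: for every continuous seminorm `p` there is a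
continuous seminorm `q ≥ p` such that the canonical map from the completion of `X_q` to the
completion of `X_p` is a nuclear operator. Here `X_p` is `X` seminormed by `p`, its Hausdorff
completion is the completion of the normed space `X / p⁻¹(0)`, and the canonical map is the
continuous linear map of completions induced by the identity of `X`. -/
def IsNuclearSpace (𝕜 : Type) [RCLike 𝕜] (X : Type u) [AddCommGroup X] [Module 𝕜 X]
    [UniformSpace X] : Prop :=
  ∀ p : Seminorm 𝕜 X, Continuous p → ∃ q : Seminorm 𝕜 X, Continuous q ∧ p ≤ q ∧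
    @InducesNuclear 𝕜 _ X X q.toSeminormedAddCommGroup (seminormedSpace q)
      p.toSeminormedAddCommGroup (seminormedSpace p) id

/-- The set of sign vectors. -/
noncomputable def signs (ι : Type u) [Fintype ι] [DecidableEq ι] : Finset (ι → ℝ) :=
  Fintype.piFinset fun _ => ({1, -1} : Finset ℝ)

section
variable {ι : Type u} [Fintype ι] [DecidableEq ι]

lemma one_ne_neg_one : (1 : ℝ) ≠ -1 := by norm_num

lemma card_signs : (signs ι).card = 2 ^ Fintype.card ι := by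
  unfold signs
  rw [Fintype.card_piFinset]
  simp [Finset.card_pair one_ne_neg_one]

lemma sum_exp_signs (a : ι → ℝ) :
    ∑ ε ∈ signs ι, Real.exp (∑ i, ε i * a i) ≤ 2 ^ Fintype.card ι * Real.exp ((∑ i, a i ^ 2) / 2) := by
  have h1 : ∑ ε ∈ signs ι, Real.exp (∑ i, ε i * a i) = ∏ i, (Real.exp (a i) + Real.exp (-a i)) := by
    unfold signs
    simp_rw [Real.exp_sum]
    rw [Finset.sum_prod_piFinset ({1, -1} : Finset ℝ) (fun i e => Real.exp (e * a i))]
    refine Finset.prod_congr rfl fun i _ => ?_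
    rw [Finset.sum_pair one_ne_neg_one]
    simp
  rw [h1]
  have h2 : ∀ i, Real.exp (a i) + Real.exp (-a i) ≤ 2 * Real.exp (a i ^ 2 / 2) := by
    intro i
    have := Real.cosh_le_exp_half_sq (a i)
    rw [Real.cosh_eq] at this
    linarith
  calc ∏ i, (Real.exp (a i) + Real.exp (-a i)) ≤ ∏ i, (2 * Real.exp (a i ^ 2 / 2)) := by
        refine Finset.prod_le_prod (fun i _ => by positivity) fun i _ => h2 i
    _ = 2 ^ Fintype.card ι * Real.exp ((∑ i, a i ^ 2) / 2) := by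
        rw [Finset.prod_mul_distrib, Finset.prod_const, ← Real.exp_sum, Finset.sum_div, Finset.card_univ]

lemma sum_signs_mul (i j : ι) :
    ∑ ε ∈ signs ι, ε i * ε j = if i = j then (2 : ℝ) ^ Fintype.card ι else 0 := by
  split_ifs with h
  · subst h
    have : ∀ ε ∈ signs ι, ε i * ε i = 1 := by
      intro ε hε
      unfold signs at hε
      rw [Fintype.mem_piFinset] at hε
      have := hε i
      simp only [Finset.mem_insert, Finset.mem_singleton] at this
      rcases this with h | h <;> rw [h] <;> norm_num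
    rw [Finset.sum_congr rfl this, Finset.sum_const, card_signs]
    simp
  · have h1 : ∀ ε : ι → ℝ, ε i * ε j = ∏ k, (if k = i then ε k else 1) * (if k = j then ε k else 1) := by
      intro ε
      rw [Finset.prod_mul_distrib]
      simp
    unfold signs
    simp_rw [h1]
    rw [Finset.sum_prod_piFinset ({1, -1} : Finset ℝ)
      (fun k e => (if k = i then e else 1) * (if k = j then e else 1))]
    refine Finset.prod_eq_zero (Finset.mem_univ i) ?_
    rw [Finset.sum_pair one_ne_neg_one]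
    simp [h]

/-- parallelogram identity -/
lemma sum_norm_sq_signs {𝕜 H : Type*} [RCLike 𝕜] [NormedAddCommGroup H] [InnerProductSpace 𝕜 H]
    (v : ι → H) :
    ∑ ε ∈ signs ι, ‖∑ i, (ε i : 𝕜) • v i‖ ^ 2 = 2 ^ Fintype.card ι * ∑ i, ‖v i‖ ^ 2 := by
  have h1 : ∀ ε : ι → ℝ, ‖∑ i, (ε i : 𝕜) • v i‖ ^ 2 =
      ∑ i, ∑ j, (ε i * ε j) * RCLike.re (inner 𝕜 (v i) (v j)) := by
    intro ε
    rw [← inner_self_eq_norm_sq (𝕜 := 𝕜)]
    simp_rw [sum_inner, inner_sum, inner_smul_left, inner_smul_right, map_sum]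
    refine Finset.sum_congr rfl fun i _ => Finset.sum_congr rfl fun j _ => ?_
    simp [RCLike.conj_ofReal, mul_assoc]
  simp_rw [h1]
  rw [Finset.sum_comm]
  simp_rw [Finset.sum_comm (s := signs ι)]
  simp_rw [← Finset.sum_mul, sum_signs_mul]
  rw [Finset.mul_sum]
  refine Finset.sum_congr rfl fun i _ => ?_
  simp


/-- the elementary inequality `U² / w² ≤ 4 + 4 e^{-2w} e^U`. -/
lemma elem_ineq (U w : ℝ) (hU : 0 ≤ U) (hw : 1 ≤ w) :
    (U / w) ^ 2 ≤ 4 + 4 * Real.exp (-2 * w) * Real.exp U := by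
  have hw0 : 0 < w := by linarith
  rcases le_or_gt U (2 * w) with h | h
  · have h1 : U / w ≤ 2 := by rw [div_le_iff₀ hw0]; exact h
    have h2 : 0 ≤ U / w := by positivity
    have h3 : 0 ≤ 4 * Real.exp (-2 * w) * Real.exp U := by positivity
    nlinarith
  · obtain ⟨r, hr⟩ : ∃ r, U = 2 * w + r := ⟨U - 2 * w, by ring⟩
    have hr0 : 0 ≤ r := by linarith
    have h1 : U / w = 2 * (1 + r / (2 * w)) := by rw [hr]; field_simp
    have h2 : 1 + r / (2 * w) ≤ Real.exp (r / 2) := by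
      have h3 : r / (2 * w) ≤ r / 2 := by
        apply div_le_div_of_nonneg_left hr0 (by norm_num) (by linarith)
      have := Real.add_one_le_exp (r / 2)
      linarith
    have h3 : Real.exp (-2 * w) * Real.exp U = Real.exp (r / 2) ^ 2 := by
      rw [← Real.exp_add, ← Real.exp_nat_mul, hr]
      congr 1
      push_cast
      ring
    have h4 : 0 ≤ 1 + r / (2 * w) := by positivity
    rw [mul_assoc, h3, h1]
    have : (1 + r / (2 * w)) ^ 2 ≤ Real.exp (r / 2) ^ 2 := by gcongr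
    nlinarith

/-- exponential moments of the modulus of a Rademacher sum with values in `𝕜` -/
lemma sum_exp_norm_signs {𝕜 : Type*} [RCLike 𝕜] (z : ι → 𝕜) (hz : ∑ i, ‖z i‖ ^ 2 ≤ 1) :
    ∑ ε ∈ signs ι, Real.exp ‖∑ i, (ε i : 𝕜) * z i‖ ≤ 2 ^ Fintype.card ι * (2 * Real.exp 2) := by
  -- real and imaginary parts
  set A : ι → ℝ := fun i => RCLike.re (z i) with hA
  set B : ι → ℝ := fun i => RCLike.im (z i) with hB
  have hAB : ∀ i, A i ^ 2 + B i ^ 2 = ‖z i‖ ^ 2 := by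
    intro i
    rw [← RCLike.normSq_eq_def', RCLike.normSq_apply, hA, hB]
    ring
  have hA1 : ∑ i, A i ^ 2 ≤ 1 := le_trans (Finset.sum_le_sum fun i _ => by
    rw [← hAB i]; nlinarith [sq_nonneg (B i)]) hz
  have hB1 : ∑ i, B i ^ 2 ≤ 1 := le_trans (Finset.sum_le_sum fun i _ => by
    rw [← hAB i]; nlinarith [sq_nonneg (A i)]) hz
  have key : ∀ ε : ι → ℝ, Real.exp ‖∑ i, (ε i : 𝕜) * z i‖ ≤
      (Real.exp (∑ i, ε i * (2 * A i)) + Real.exp (∑ i, ε i * (-2 * A i)) +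
       Real.exp (∑ i, ε i * (2 * B i)) + Real.exp (∑ i, ε i * (-2 * B i))) / 2 := by
    intro ε
    set a := ∑ i, ε i * A i with ha
    set b := ∑ i, ε i * B i with hb
    have e1 : ∑ i, ε i * (2 * A i) = 2 * a := by rw [ha, Finset.mul_sum]; congr 1; ext i; ring
    have e2 : ∑ i, ε i * (-2 * A i) = -(2 * a) := by
      rw [ha, Finset.mul_sum, ← Finset.sum_neg_distrib]; congr 1; ext i; ring
    have e3 : ∑ i, ε i * (2 * B i) = 2 * b := by rw [hb, Finset.mul_sum]; congr 1; ext i; ring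
    have e4 : ∑ i, ε i * (-2 * B i) = -(2 * b) := by
      rw [hb, Finset.mul_sum, ← Finset.sum_neg_distrib]; congr 1; ext i; ring
    rw [e1, e2, e3, e4]
    have hre : RCLike.re (∑ i, (ε i : 𝕜) * z i) = a := by
      rw [map_sum, ha]
      refine Finset.sum_congr rfl fun i _ => ?_
      rw [RCLike.re_ofReal_mul]
    have him : RCLike.im (∑ i, (ε i : 𝕜) * z i) = b := by
      rw [map_sum, hb]
      refine Finset.sum_congr rfl fun i _ => ?_
      rw [RCLike.im_ofReal_mul]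
    have hn : ‖∑ i, (ε i : 𝕜) * z i‖ ≤ |a| + |b| := by
      have h0 : ‖∑ i, (ε i : 𝕜) * z i‖ ^ 2 = a ^ 2 + b ^ 2 := by
        rw [← RCLike.normSq_eq_def', RCLike.normSq_apply, hre, him]
        ring
      have h1 : a ^ 2 + b ^ 2 ≤ (|a| + |b|) ^ 2 := by
        nlinarith [sq_abs a, sq_abs b, mul_nonneg (abs_nonneg a) (abs_nonneg b)]
      rw [← h0] at h1
      exact (pow_le_pow_iff_left₀ (norm_nonneg _) (by positivity) (by norm_num)).mp h1
    have h1 : ∀ x : ℝ, Real.exp (2 * |x|) ≤ Real.exp (2 * x) + Real.exp (-(2 * x)) := by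
      intro x
      rcases abs_cases x with ⟨h, _⟩ | ⟨h, _⟩
      · rw [h]; have := Real.exp_pos (-(2 * x)); linarith
      · rw [h]; have := Real.exp_pos (2 * x)
        have e : 2 * -x = -(2 * x) := by ring
        rw [e]; linarith
    have h2 : Real.exp (|a| + |b|) ≤ (Real.exp (2 * |a|) + Real.exp (2 * |b|)) / 2 := by
      rw [Real.exp_add]
      have e5 : Real.exp (2 * |a|) = Real.exp |a| ^ 2 := by
        rw [← Real.exp_nat_mul]; push_cast; rfl
      have e6 : Real.exp (2 * |b|) = Real.exp |b| ^ 2 := by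
        rw [← Real.exp_nat_mul]; push_cast; rfl
      rw [e5, e6]
      nlinarith [sq_nonneg (Real.exp |a| - Real.exp |b|)]
    have h3 := h1 a
    have h4 := h1 b
    have h5 := Real.exp_le_exp.mpr hn
    linarith
  have hs : ∀ (C : ι → ℝ) (s : ℝ), (s = 2 ∨ s = -2) → ∑ i, C i ^ 2 ≤ 1 →
      ∑ ε ∈ signs ι, Real.exp (∑ i, ε i * (s * C i)) ≤ 2 ^ Fintype.card ι * Real.exp 2 := by
    intro C s hs hC
    refine le_trans (sum_exp_signs fun i => s * C i) ?_
    have hs2 : s ^ 2 = 4 := by rcases hs with h | h <;> rw [h] <;> norm_num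
    have : (∑ i, (s * C i) ^ 2) / 2 ≤ 2 := by
      simp_rw [mul_pow, hs2]
      rw [← Finset.mul_sum]
      linarith
    gcongr
  have t1 := hs A 2 (Or.inl rfl) hA1
  have t2 := hs A (-2) (Or.inr rfl) hA1
  have t3 := hs B 2 (Or.inl rfl) hB1
  have t4 := hs B (-2) (Or.inr rfl) hB1
  calc ∑ ε ∈ signs ι, Real.exp ‖∑ i, (ε i : 𝕜) * z i‖
      ≤ ∑ ε ∈ signs ι, (Real.exp (∑ i, ε i * (2 * A i)) + Real.exp (∑ i, ε i * (-2 * A i)) +
       Real.exp (∑ i, ε i * (2 * B i)) + Real.exp (∑ i, ε i * (-2 * B i))) / 2 :=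
        Finset.sum_le_sum fun ε _ => key ε
    _ ≤ 2 ^ Fintype.card ι * (2 * Real.exp 2) := by
        rw [← Finset.sum_div, Finset.sum_add_distrib, Finset.sum_add_distrib,
          Finset.sum_add_distrib]
        linarith


end

section
open Finset


/-- Sub-probability sequences. -/
def subProb : Set (ℕ → ℝ) := {l | (∀ j, 0 ≤ l j) ∧ ∀ n, ∑ j ∈ range n, l j ≤ 1}

lemma subProb_le_one {l : ℕ → ℝ} (hl : l ∈ subProb) (j : ℕ) : l j ≤ 1 := by
  have h1 := hl.2 (j + 1)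
  rw [sum_range_succ] at h1
  have h2 : 0 ≤ ∑ i ∈ range j, l i := sum_nonneg fun i _ => hl.1 i
  linarith

lemma subProb_summable {l : ℕ → ℝ} (hl : l ∈ subProb) : Summable l :=
  summable_of_sum_range_le hl.1 hl.2

lemma subProb_tsum_le {l : ℕ → ℝ} (hl : l ∈ subProb) : ∑' j, l j ≤ 1 :=
  (subProb_summable hl).tsum_le_of_sum_range_le hl.2

lemma isClosed_subProb : IsClosed subProb := by
  have : subProb = (⋂ j, {l : ℕ → ℝ | 0 ≤ l j}) ∩ ⋂ n, {l : ℕ → ℝ | ∑ j ∈ range n, l j ≤ 1} := by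
    ext l; simp [subProb]
  rw [this]
  refine IsClosed.inter (isClosed_iInter fun j => ?_) (isClosed_iInter fun n => ?_)
  · exact isClosed_le continuous_const (continuous_apply j)
  · exact isClosed_le (continuous_finsetSum _ fun j _ => continuous_apply j) continuous_const

lemma isCompact_subProb : IsCompact subProb := by
  refine IsCompact.of_isClosed_subset (isCompact_univ_pi fun _ : ℕ => isCompact_Icc (a := (0:ℝ)) (b := 1))
    isClosed_subProb ?_
  intro l hl j _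
  exact ⟨hl.1 j, subProb_le_one hl j⟩

lemma convex_subProb : Convex ℝ subProb := by
  intro l hl m hm a b ha hb hab
  refine ⟨fun j => ?_, fun n => ?_⟩
  · simp only [Pi.add_apply, Pi.smul_apply, smul_eq_mul]
    have := hl.1 j; have := hm.1 j
    positivity
  · simp only [Pi.add_apply, Pi.smul_apply, smul_eq_mul]
    rw [sum_add_distrib, ← mul_sum, ← mul_sum]
    have := hl.2 n; have := hm.2 n
    nlinarith

lemma summable_mul {l : ℕ → ℝ} (hl : l ∈ subProb) {h : ℕ → ℝ} (h0 : ∀ j, 0 ≤ h j)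
    (hh : Tendsto h atTop (𝓝 0)) : Summable fun j => l j * h j := by
  obtain ⟨B, hB⟩ := hh.bddAbove_range
  refine Summable.of_nonneg_of_le (fun j => mul_nonneg (hl.1 j) (h0 j)) (fun j => ?_)
    ((subProb_summable hl).mul_right B)
  exact mul_le_mul_of_nonneg_left (hB ⟨j, rfl⟩) (hl.1 j)

lemma continuousOn_tsum {h : ℕ → ℝ} (h0 : ∀ j, 0 ≤ h j)
    (hh : Tendsto h atTop (𝓝 0)) :
    ContinuousOn (fun l : ℕ → ℝ => ∑' j, l j * h j) subProb := by
  have hu : TendstoUniformlyOn (fun (n : ℕ) (l : ℕ → ℝ) => ∑ j ∈ range n, l j * h j)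
      (fun l : ℕ → ℝ => ∑' j, l j * h j) atTop subProb := by
    rw [Metric.tendstoUniformlyOn_iff]
    intro δ hδ
    have h1 : ∀ᶠ n in atTop, ∀ m ≥ n, h m < δ / 2 := by
      have := (tendsto_order.1 hh).2 (δ / 2) (by linarith)
      rw [eventually_atTop] at this
      obtain ⟨N, hN⟩ := this
      rw [eventually_atTop]
      exact ⟨N, fun n hn m hm => hN m (le_trans hn hm)⟩
    filter_upwards [h1] with n hn l hl
    have hs := summable_mul hl h0 hh
    rw [Real.dist_eq, ← hs.sum_add_tsum_nat_add n]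
    have e : ∑ j ∈ range n, l j * h j + ∑' j, l (j + n) * h (j + n) - ∑ j ∈ range n, l j * h j
        = ∑' j, l (j + n) * h (j + n) := by ring
    rw [e]
    have hs' : Summable fun j => l (j + n) * h (j + n) := (summable_nat_add_iff n).2 hs
    have hsl : Summable fun j => l (j + n) := (summable_nat_add_iff n).2 (subProb_summable hl)
    rw [abs_of_nonneg (tsum_nonneg fun j => mul_nonneg (hl.1 _) (h0 _))]
    have h2 : ∑' j, l (j + n) * h (j + n) ≤ ∑' j, l (j + n) * (δ / 2) := by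
      refine hs'.tsum_le_tsum (fun j => ?_) (hsl.mul_right _)
      exact mul_le_mul_of_nonneg_left (hn (j + n) (by simp)).le (hl.1 _)
    rw [tsum_mul_right] at h2
    have h3 : ∑' j, l (j + n) ≤ 1 := by
      have := (subProb_summable hl).sum_add_tsum_nat_add n
      have h4 := subProb_tsum_le hl
      have h5 : 0 ≤ ∑ i ∈ range n, l i := sum_nonneg fun i _ => hl.1 i
      linarith
    have h4 : 0 ≤ ∑' j, l (j + n) := tsum_nonneg fun j => hl.1 _
    nlinarith
  refine hu.continuousOn (Frequently.of_forall fun n => ?_)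
  exact (continuous_finsetSum _ fun j _ => (continuous_apply j).mul continuous_const).continuousOn

lemma single_mem_subProb (j : ℕ) : (Pi.single j (1 : ℝ) : ℕ → ℝ) ∈ subProb := by
  refine ⟨fun i => ?_, fun n => ?_⟩
  · by_cases h : i = j
    · subst h; simp
    · simp [Pi.single_eq_of_ne h]
  · simp only [Pi.single_apply]
    rw [Finset.sum_ite_eq']
    split_ifs <;> norm_num

/-- Pietsch domination, discrete form. -/
lemma pietsch {V : Type*} (b : V → ℝ) (h : V → ℕ → ℝ) (D : ℝ) (hD : 0 < D)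
    (h0 : ∀ v j, 0 ≤ h v j) (hh : ∀ v, Tendsto (h v) atTop (𝓝 0))
    (Hs : ∀ (t : Finset V) (μ : V → ℝ), (∀ v, 0 ≤ μ v) → ∀ M : ℝ,
      (∀ j, ∑ v ∈ t, μ v * h v j ≤ M) → ∑ v ∈ t, μ v * b v ≤ D * M) :
    ∃ l ∈ subProb, ∀ v, b v ≤ D * ∑' j, l j * h v j := by
  classical
  set Kv : V → Set (ℕ → ℝ) := fun v => subProb ∩ {l | b v ≤ D * ∑' j, l j * h v j} with hKv
  have hclosed : ∀ v, IsClosed (Kv v) := by
    intro v
    have := (ContinuousOn.const_smul (continuousOn_tsum (h0 v) (hh v)) D).preimage_isClosed_of_isClosed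
      isClosed_subProb (isClosed_Ici (a := b v))
    exact this
  have hfin : ∀ t : Finset V, (subProb ∩ ⋂ v ∈ t, Kv v).Nonempty := by
    intro t
    by_contra hne
    -- the image set
    set F : (ℕ → ℝ) → (t → ℝ) := fun l v => D * (∑' j, l j * h v j) - b v with hF
    set A : Set (t → ℝ) := F '' subProb with hA
    set B : Set (t → ℝ) := {x | ∀ v, 0 ≤ x v} with hB
    have hAc : IsCompact A := by
      refine isCompact_subProb.image_of_continuousOn ?_
      rw [continuousOn_pi]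
      intro v
      exact (ContinuousOn.const_smul (continuousOn_tsum (h0 v) (hh v)) D).sub continuousOn_const
    have hAconv : Convex ℝ A := by
      rintro _ ⟨l, hl, rfl⟩ _ ⟨m, hm, rfl⟩ a c ha hc hac
      refine ⟨a • l + c • m, convex_subProb hl hm ha hc hac, ?_⟩
      ext v
      simp only [hF, Pi.add_apply, Pi.smul_apply, smul_eq_mul]
      have s1 := summable_mul hl (h0 v) (hh v)
      have s2 := summable_mul hm (h0 v) (hh v)
      have e1 : ∑' j, (a * l j + c * m j) * h v j = a * ∑' j, l j * h v j + c * ∑' j, m j * h v j := by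
        rw [← tsum_mul_left, ← tsum_mul_left, ← (s1.mul_left a).tsum_add (s2.mul_left c)]
        congr 1; ext j; ring
      rw [e1]
      have : b v = a * b v + c * b v := by rw [← add_mul, hac, one_mul]
      linear_combination -this
    have hBconv : Convex ℝ B := by
      intro x hx y hy a c ha hc _ v
      simp only [Pi.add_apply, Pi.smul_apply, smul_eq_mul]
      have := hx v; have := hy v; positivity
    have hBclosed : IsClosed B := by
      have : B = ⋂ v, {x : t → ℝ | 0 ≤ x v} := by ext x; simp [hB]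
      rw [this]
      exact isClosed_iInter fun v => isClosed_le continuous_const (continuous_apply v)
    have hdisj : Disjoint A B := by
      rw [Set.disjoint_left]
      rintro _ ⟨l, hl, rfl⟩ hlB
      apply hne
      refine ⟨l, hl, ?_⟩
      simp only [Set.mem_iInter]
      intro v hv
      refine ⟨hl, ?_⟩
      have := hlB ⟨v, hv⟩
      simp only [hF] at this
      change b v ≤ D * ∑' j, l j * h v j
      linarith
    obtain ⟨f, u, v, hfA, huv, hfB⟩ := geometric_hahn_banach_compact_closed hAconv hAc hBconv hBclosed hdisj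
    have hv0 : v < 0 := by
      have := hfB 0 (fun _ => by simp)
      simpa using this
    set μ : V → ℝ := fun x => if hx : x ∈ t then f (Pi.single ⟨x, hx⟩ 1) else 0 with hμ
    have hμ0 : ∀ x, 0 ≤ μ x := by
      intro x
      simp only [hμ]
      split_ifs with hx
      · by_contra hneg
        push Not at hneg
        set c := f (Pi.single ⟨x, hx⟩ (1:ℝ)) with hc
        have h1 : v < f ((v / c) • Pi.single ⟨x, hx⟩ (1:ℝ)) := by
          apply hfB
          intro y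
          simp only [Pi.smul_apply, smul_eq_mul]
          have : 0 ≤ v / c := div_nonneg_of_nonpos hv0.le hneg.le
          by_cases hy : y = ⟨x, hx⟩
          · subst hy; simpa using this
          · simp [Pi.single_eq_of_ne hy]
        rw [map_smul, ← hc, smul_eq_mul, div_mul_cancel₀ _ hneg.ne] at h1
        exact lt_irrefl _ h1
      · exact le_rfl
    have hfsum : ∀ x : t → ℝ, f x = ∑ v : t, μ v * x v := by
      intro x
      conv_lhs => rw [← Finset.univ_sum_single x]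
      rw [map_sum]
      refine Finset.sum_congr rfl fun y _ => ?_
      have : (Pi.single y (x y) : t → ℝ) = x y • Pi.single y 1 := by
        rw [← Pi.single_smul, smul_eq_mul, mul_one]
      rw [this, map_smul]
      simp [hμ, mul_comm]
    have hsumt : ∀ G : V → ℝ, ∑ v : t, μ v * G v = ∑ v ∈ t, μ v * G v := by
      intro G
      exact Finset.sum_coe_sort t (fun v => μ v * G v)
    set S := ∑ x ∈ t, μ x * b x with hS
    have hM : ∀ j, ∑ x ∈ t, μ x * h x j ≤ (S + v) / D := by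
      intro j
      have h1 := hfA (F (Pi.single j 1)) ⟨_, single_mem_subProb j, rfl⟩
      rw [hfsum] at h1
      have h2 : ∀ x : V, ∑' i, (Pi.single j (1:ℝ) : ℕ → ℝ) i * h x i = h x j := by
        intro x
        rw [tsum_eq_single j]
        · simp
        · intro i hi; simp [Pi.single_eq_of_ne hi]
      simp only [hF, h2] at h1
      rw [hsumt (fun x => D * h x j - b x)] at h1
      have h3 : ∑ x ∈ t, μ x * (D * h x j - b x) = D * ∑ x ∈ t, μ x * h x j - S := by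
        rw [hS, Finset.mul_sum, ← Finset.sum_sub_distrib]
        refine Finset.sum_congr rfl fun x _ => by ring
      rw [h3] at h1
      rw [le_div_iff₀ hD]
      linarith
    have h5 := Hs t μ hμ0 _ hM
    rw [mul_div_cancel₀ _ hD.ne'] at h5
    linarith
  obtain ⟨l, hl, hl2⟩ := isCompact_subProb.inter_iInter_nonempty Kv hclosed hfin
  refine ⟨l, hl, fun v => ?_⟩
  have := Set.mem_iInter.1 hl2 v
  exact this.2


end


/-- weights -/
noncomputable def w (j : ℕ) : ℝ := 1 + Real.log (j + 1)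

lemma one_le_w (j : ℕ) : 1 ≤ w j := by
  unfold w
  have : 0 ≤ Real.log ((j : ℝ) + 1) := Real.log_nonneg (by linarith [Nat.cast_nonneg (α := ℝ) j])
  linarith

lemma w_pos (j : ℕ) : 0 < w j := lt_of_lt_of_le one_pos (one_le_w j)

lemma w_tendsto : Tendsto w atTop atTop := by
  unfold w
  refine tendsto_atTop_add_const_left _ _ ?_
  refine Real.tendsto_log_atTop.comp ?_
  exact tendsto_atTop_add_const_right _ _ tendsto_natCast_atTop_atTop

lemma exp_neg_two_w (j : ℕ) : Real.exp (-2 * w j) = Real.exp (-2) * (1 / ((j : ℝ) + 1) ^ 2) := by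
  unfold w
  have h : (0:ℝ) < (j : ℝ) + 1 := by positivity
  rw [mul_add, Real.exp_add, mul_one]
  congr 1
  rw [show -2 * Real.log ((j:ℝ) + 1) = -(2 * Real.log ((j:ℝ) + 1)) by ring, Real.exp_neg,
    show (2 : ℝ) * Real.log ((j:ℝ) + 1) = ((2:ℕ) : ℝ) * Real.log ((j:ℝ) + 1) by norm_num,
    Real.exp_nat_mul, Real.exp_log h, one_div]

lemma summable_exp_w : Summable fun j => Real.exp (-2 * w j) := by
  simp_rw [exp_neg_two_w]
  refine Summable.mul_left _ ?_
  have h := (Real.summable_one_div_nat_pow (p := 2)).2 (by norm_num)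
  have h2 := (summable_nat_add_iff 1).2 h
  simpa using h2

lemma not_summable_w (m : ℕ) : ¬ Summable fun j => (w j ^ m)⁻¹ := by
  intro hs
  -- `w j ^ m ≤ C (j+1)`
  have h1 : Tendsto (fun j : ℕ => w j ^ m / ((j : ℝ) + 1)) atTop (𝓝 0) := by
    have hlog : (fun x : ℝ => (1 + Real.log x) ^ m) =o[atTop] (fun x : ℝ => x) := by
      have e : ∀ᶠ x : ℝ in atTop, ‖(1 + Real.log x) ^ m‖ ≤ 2 ^ m * ‖Real.log x ^ m‖ := by
        filter_upwards [Filter.eventually_ge_atTop (Real.exp 1)] with x hx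
        have h1 : 1 ≤ Real.log x := by
          rw [Real.le_log_iff_exp_le (lt_of_lt_of_le (Real.exp_pos 1) hx)]; exact hx
        rw [Real.norm_of_nonneg (by positivity), Real.norm_of_nonneg (by positivity), ← mul_pow]
        gcongr
        linarith
      have h2 := (Real.isLittleO_pow_log_id_atTop (n := m))
      exact (Asymptotics.IsBigO.of_bound _ e).trans_isLittleO h2
    have h2 := hlog.tendsto_div_nhds_zero
    have h3 : Tendsto (fun j : ℕ => (j : ℝ) + 1) atTop atTop :=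
      tendsto_atTop_add_const_right _ _ tendsto_natCast_atTop_atTop
    exact h2.comp h3
  obtain ⟨B, hB⟩ := h1.bddAbove_range
  have hB' : ∀ j : ℕ, w j ^ m ≤ B * ((j : ℝ) + 1) := by
    intro j
    have := hB ⟨j, rfl⟩
    simp only at this
    rwa [div_le_iff₀ (by positivity)] at this
  have hBpos : 0 < B := by
    have := hB' 0
    have h2 : 0 < w 0 ^ m := pow_pos (w_pos 0) m
    simp at this
    linarith
  have h4 : Summable fun j : ℕ => 1 / ((j : ℝ) + 1) := by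
    refine Summable.of_nonneg_of_le (fun j => by positivity) (fun j => ?_) (hs.mul_left B)
    rw [div_le_iff₀ (by positivity), ← div_eq_mul_inv, div_mul_eq_mul_div,
      le_div_iff₀ (pow_pos (w_pos j) m), one_mul]
    exact hB' j
  have h5 : Summable fun j : ℕ => 1 / (j : ℝ) := by
    have : Summable fun j : ℕ => 1 / ((j + 1 : ℕ) : ℝ) := by simpa using h4
    exact (summable_nat_add_iff 1).1 this
  exact Real.not_summable_one_div_natCast h5

variable (𝕜 : Type) [RCLike 𝕜]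

/-- The Koethe echelon space with weights `w j ^ k`, as a closed subspace of a countable power of
`ℓ^∞`. -/
def XS : Submodule 𝕜 (ℕ → lp (fun _ : ℕ => 𝕜) ∞) where
  carrier := {z | ∀ k j, (z k : ∀ _ : ℕ, 𝕜) j = ((w j ^ k : ℝ) : 𝕜) * (z 0 : ∀ _ : ℕ, 𝕜) j}
  zero_mem' := by intro k j; simp
  add_mem' := by
    intro a b ha hb k j
    simp only [Pi.add_apply, lp.coeFn_add]
    rw [ha k j, hb k j, mul_add]
  smul_mem' := by
    intro c a ha k j
    simp only [Pi.smul_apply, lp.coeFn_smul, smul_eq_mul]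
    rw [ha k j]; ring

variable {𝕜}

lemma XS_apply (z : XS 𝕜) (k j : ℕ) :
    (z.1 k : ∀ _ : ℕ, 𝕜) j = ((w j ^ k : ℝ) : 𝕜) * (z.1 0 : ∀ _ : ℕ, 𝕜) j := z.2 k j

lemma XS_succ (z : XS 𝕜) (k j : ℕ) :
    (z.1 (k + 1) : ∀ _ : ℕ, 𝕜) j = ((w j : ℝ) : 𝕜) * (z.1 k : ∀ _ : ℕ, 𝕜) j := by
  rw [XS_apply, XS_apply z k, pow_succ]
  push_cast
  ring

lemma norm_XS_succ (z : XS 𝕜) (k j : ℕ) :
    ‖(z.1 (k + 1) : ∀ _ : ℕ, 𝕜) j‖ = w j * ‖(z.1 k : ∀ _ : ℕ, 𝕜) j‖ := by
  rw [XS_succ, norm_mul, RCLike.norm_ofReal, abs_of_pos (w_pos j)]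

lemma norm_mono_XS (z : XS 𝕜) (k : ℕ) : ‖z.1 k‖ ≤ ‖z.1 (k + 1)‖ := by
  refine lp.norm_le_of_forall_le (norm_nonneg _) fun j => ?_
  refine le_trans ?_ (lp.norm_apply_le_norm (by simp) (z.1 (k + 1)) j)
  rw [norm_XS_succ]
  have := one_le_w j
  nlinarith [norm_nonneg ((z.1 k : ∀ _ : ℕ, 𝕜) j)]

lemma norm_mono_XS' (z : XS 𝕜) : Monotone fun k => ‖z.1 k‖ :=
  monotone_nat_of_le_succ (norm_mono_XS z)

lemma isClosed_XS : IsClosed (XS 𝕜 : Set (ℕ → lp (fun _ : ℕ => 𝕜) ∞)) := by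
  have hcont : ∀ k j, Continuous fun z : ℕ → lp (fun _ : ℕ => 𝕜) ∞ => (z k : ∀ _ : ℕ, 𝕜) j := by
    intro k j
    have h1 : Continuous fun z : lp (fun _ : ℕ => 𝕜) ∞ => (z : ∀ _ : ℕ, 𝕜) j := by
      refine Metric.continuous_iff.2 ?_
      intro b ε hε
      refine ⟨ε, hε, fun a ha => ?_⟩
      rw [dist_eq_norm] at ha ⊢
      refine lt_of_le_of_lt ?_ ha
      have := lp.norm_apply_le_norm (by simp) (a - b) j
      simpa using this
    exact h1.comp (continuous_apply k)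
  have : (XS 𝕜 : Set (ℕ → lp (fun _ : ℕ => 𝕜) ∞)) = ⋂ k, ⋂ j,
      {z | (z k : ∀ _ : ℕ, 𝕜) j = ((w j ^ k : ℝ) : 𝕜) * (z 0 : ∀ _ : ℕ, 𝕜) j} := by
    ext z; simp only [Set.mem_iInter]; rfl
  rw [this]
  exact isClosed_iInter fun k => isClosed_iInter fun j =>
    isClosed_eq (hcont k j) (continuous_const.mul (hcont 0 j))

/-- coordinates tend to zero. -/
lemma XS_tendsto (z : XS 𝕜) (k : ℕ) :
    Tendsto (fun j => ‖(z.1 k : ∀ _ : ℕ, 𝕜) j‖ ^ 2) atTop (𝓝 0) := by
  have h1 : ∀ j, ‖(z.1 k : ∀ _ : ℕ, 𝕜) j‖ ≤ ‖z.1 (k + 1)‖ * (w j)⁻¹ := by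
    intro j
    have h2 := lp.norm_apply_le_norm (by simp) (z.1 (k + 1)) j
    rw [norm_XS_succ] at h2
    rw [← div_eq_mul_inv, le_div_iff₀ (w_pos j)]
    linarith
  have h3 : Tendsto (fun j => ‖z.1 (k + 1)‖ * (w j)⁻¹) atTop (𝓝 0) := by
    have := (w_tendsto.inv_tendsto_atTop).const_mul ‖z.1 (k + 1)‖
    simpa using this
  have h4 : Tendsto (fun j => ‖(z.1 k : ∀ _ : ℕ, 𝕜) j‖) atTop (𝓝 0) :=
    squeeze_zero (fun j => norm_nonneg _) h1 h3
  simpa using h4.pow 2

lemma bound_XS (q : Seminorm 𝕜 (XS 𝕜)) (hq : Continuous q) :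
    ∃ (k : ℕ) (C : ℝ), 0 ≤ C ∧ ∀ z, q z ≤ C * ‖z.1 k‖ := by
  have h1 := withSeminorms_pi (𝕜 := 𝕜) (fun _ : ℕ => norm_withSeminorms 𝕜 (lp (fun _ : ℕ => 𝕜) ∞))
  have h2 := (IsInducing.subtypeVal (Y := ℕ → lp (fun _ : ℕ => 𝕜) ∞)
    (t := (XS 𝕜 : Set (ℕ → lp (fun _ : ℕ => 𝕜) ∞)))).withSeminorms (f := (XS 𝕜).subtype) h1
  obtain ⟨s, C, _, hC⟩ := Seminorm.bound_of_continuous h2 q hq
  obtain ⟨k, hk⟩ := (s.image Sigma.fst).exists_le
  refine ⟨k, C, C.2, fun z => ?_⟩
  refine le_trans (hC z) ?_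
  simp only [smul_apply, NNReal.smul_def, smul_eq_mul]
  refine mul_le_mul_of_nonneg_left ?_ C.2
  refine Seminorm.finset_sup_apply_le (norm_nonneg _) fun i hi => ?_
  change ‖z.1 i.1‖ ≤ ‖z.1 k‖
  exact norm_mono_XS' z (hk i.1 (Finset.mem_image_of_mem _ hi))


section
variable {𝕜 : Type} [RCLike 𝕜] {ι : Type u} [Fintype ι] [DecidableEq ι]

/-- the constant of the averaging estimate -/
noncomputable def cst : ℝ := 4 + ∑' j, 4 * Real.exp (-2 * w j) * (2 * Real.exp 2)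

lemma cst_pos : 0 < cst := by
  unfold cst
  have : 0 ≤ ∑' j, 4 * Real.exp (-2 * w j) * (2 * Real.exp 2) := tsum_nonneg fun j => by positivity
  linarith

omit [DecidableEq ι] in
lemma sum_coord (y : ι → XS 𝕜) (c : ι → 𝕜) (k j : ℕ) :
    ((∑ i, c i • y i : XS 𝕜).1 k : ∀ _ : ℕ, 𝕜) j = ∑ i, c i * ((y i).1 k : ∀ _ : ℕ, 𝕜) j := by
  classical
  have h1 : (∑ i, c i • y i : XS 𝕜).1 k = ∑ i, c i • (y i).1 k := by
    rw [AddSubmonoidClass.coe_finsetSum, Finset.sum_apply]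
    rfl
  rw [h1, lp.coeFn_sum, Finset.sum_apply]
  rfl

lemma average_estimate (y : ι → XS 𝕜) (k : ℕ)
    (hy : ∀ j, ∑ i, ‖((y i).1 (k + 1) : ∀ _ : ℕ, 𝕜) j‖ ^ 2 ≤ 1) :
    ∑ ε ∈ signs ι, ‖(∑ i, ((ε i : ℝ) : 𝕜) • y i : XS 𝕜).1 k‖ ^ 2 ≤ 2 ^ Fintype.card ι * cst := by
  set U : (ι → ℝ) → ℕ → ℝ := fun ε j =>
    ‖∑ i, ((ε i : ℝ) : 𝕜) * ((y i).1 (k + 1) : ∀ _ : ℕ, 𝕜) j‖ with hU
  have hexp : ∀ j, ∑ ε ∈ signs ι, Real.exp (U ε j) ≤ 2 ^ Fintype.card ι * (2 * Real.exp 2) :=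
    fun j => sum_exp_norm_signs _ (hy j)
  have hexp1 : ∀ ε ∈ signs ι, ∀ j, Real.exp (U ε j) ≤ 2 ^ Fintype.card ι * (2 * Real.exp 2) := by
    intro ε hε j
    refine le_trans ?_ (hexp j)
    exact Finset.single_le_sum (f := fun ε => Real.exp (U ε j)) (fun _ _ => (Real.exp_pos _).le) hε
  have hsum : ∀ ε ∈ signs ι, Summable fun j => 4 * Real.exp (-2 * w j) * Real.exp (U ε j) := by
    intro ε hε
    refine Summable.of_nonneg_of_le (fun j => by positivity) (fun j => ?_)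
      ((summable_exp_w.mul_left 4).mul_right (2 ^ Fintype.card ι * (2 * Real.exp 2)))
    exact mul_le_mul_of_nonneg_left (hexp1 ε hε j) (by positivity)
  have hpt : ∀ ε ∈ signs ι, ‖(∑ i, ((ε i : ℝ) : 𝕜) • y i : XS 𝕜).1 k‖ ^ 2 ≤
      4 + ∑' j, 4 * Real.exp (-2 * w j) * Real.exp (U ε j) := by
    intro ε hε
    have hS : 0 ≤ 4 + ∑' j, 4 * Real.exp (-2 * w j) * Real.exp (U ε j) := by
      have : 0 ≤ ∑' j, 4 * Real.exp (-2 * w j) * Real.exp (U ε j) := tsum_nonneg fun j => by positivity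
      linarith
    rw [← Real.sq_sqrt hS]
    gcongr
    refine lp.norm_le_of_forall_le (Real.sqrt_nonneg _) fun j => ?_
    apply Real.le_sqrt_of_sq_le
    have h1 : ‖((∑ i, ((ε i : ℝ) : 𝕜) • y i : XS 𝕜).1 k : ∀ _ : ℕ, 𝕜) j‖ = U ε j / w j := by
      rw [eq_div_iff (w_pos j).ne', mul_comm, ← norm_XS_succ, sum_coord]
    rw [h1]
    refine le_trans (elem_ineq (U ε j) (w j) (norm_nonneg _) (one_le_w j)) ?_
    have := (hsum ε hε).le_tsum j (fun _ _ => by positivity)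
    linarith
  calc ∑ ε ∈ signs ι, ‖(∑ i, ((ε i : ℝ) : 𝕜) • y i : XS 𝕜).1 k‖ ^ 2
      ≤ ∑ ε ∈ signs ι, (4 + ∑' j, 4 * Real.exp (-2 * w j) * Real.exp (U ε j)) :=
        Finset.sum_le_sum hpt
    _ = 2 ^ Fintype.card ι * 4 + ∑' j, ∑ ε ∈ signs ι, 4 * Real.exp (-2 * w j) * Real.exp (U ε j) := by
        rw [Finset.sum_add_distrib, Finset.sum_const, card_signs, Summable.tsum_finsetSum hsum]
        simp
    _ ≤ 2 ^ Fintype.card ι * 4 + ∑' j, 4 * Real.exp (-2 * w j) *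
          (2 ^ Fintype.card ι * (2 * Real.exp 2)) := by
        gcongr
        · exact summable_sum hsum
        · exact (summable_exp_w.mul_left 4).mul_right _
        · rw [← Finset.mul_sum]
          exact mul_le_mul_of_nonneg_left (hexp _) (by positivity)
    _ = 2 ^ Fintype.card ι * cst := by
        unfold cst
        rw [mul_add, ← tsum_mul_left]
        congr 2
        ext j; ring

/-- `g` is 2-summing. -/
lemma two_summing {E : Type u} [AddCommGroup E] [Module 𝕜 E] {H : Type*} [NormedAddCommGroup H]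
    [InnerProductSpace 𝕜 H] (e : E →ₗ[𝕜] XS 𝕜) (g : E →ₗ[𝕜] H) (k : ℕ) (C : ℝ)
    (hg : ∀ x, ‖g x‖ ≤ C * ‖(e x).1 k‖) (y : ι → E)
    (hy : ∀ j, ∑ i, ‖((e (y i)).1 (k + 1) : ∀ _ : ℕ, 𝕜) j‖ ^ 2 ≤ 1) :
    ∑ i, ‖g (y i)‖ ^ 2 ≤ C ^ 2 * cst := by
  have h1 := sum_norm_sq_signs (𝕜 := 𝕜) (fun i => g (y i))
  have h2 := average_estimate (fun i => e (y i)) k hy
  have h3 : ∀ ε : ι → ℝ, ‖∑ i, (ε i : 𝕜) • g (y i)‖ ^ 2 ≤
      C ^ 2 * ‖(∑ i, ((ε i : ℝ) : 𝕜) • e (y i) : XS 𝕜).1 k‖ ^ 2 := by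
    intro ε
    have e1 : ∑ i, (ε i : 𝕜) • g (y i) = g (∑ i, (ε i : 𝕜) • y i) := by simp
    have e2 : ∑ i, (ε i : 𝕜) • e (y i) = e (∑ i, (ε i : 𝕜) • y i) := by simp
    rw [e1, e2, ← mul_pow]
    gcongr
    exact hg _
  have h4 : ∑ ε ∈ signs ι, ‖∑ i, (ε i : 𝕜) • g (y i)‖ ^ 2 ≤
      C ^ 2 * (2 ^ Fintype.card ι * cst) := by
    refine le_trans (Finset.sum_le_sum fun ε _ => h3 ε) ?_
    rw [← Finset.mul_sum]
    exact mul_le_mul_of_nonneg_left h2 (sq_nonneg C)
  rw [h1] at h4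
  have h5 : (0:ℝ) < 2 ^ Fintype.card ι := by positivity
  nlinarith

end


section
variable {𝕜 : Type} [RCLike 𝕜]

lemma two_summing' {E : Type u} [AddCommGroup E] [Module 𝕜 E] {H : Type*} [NormedAddCommGroup H]
    [InnerProductSpace 𝕜 H] (e : E →ₗ[𝕜] XS 𝕜) (g : E →ₗ[𝕜] H) (k : ℕ) (C : ℝ)
    (hg : ∀ x, ‖g x‖ ≤ C * ‖(e x).1 k‖) (t : Finset E) (μ : E → ℝ) (hμ : ∀ v, 0 ≤ μ v) (M : ℝ)
    (hM : ∀ j, ∑ v ∈ t, μ v * ‖((e v).1 (k + 1) : ∀ _ : ℕ, 𝕜) j‖ ^ 2 ≤ M) :
    ∑ v ∈ t, μ v * ‖g v‖ ^ 2 ≤ (C ^ 2 * cst) * M := by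
  classical
  have hM0 : 0 ≤ M := le_trans (Finset.sum_nonneg fun v _ => mul_nonneg (hμ v) (sq_nonneg _)) (hM 0)
  have hcst := cst_pos
  have key : ∀ δ : ℝ, 0 < δ → ∑ v ∈ t, μ v * ‖g v‖ ^ 2 ≤ (C ^ 2 * cst) * (M + δ) := by
    intro δ hδ
    have hMd : 0 < M + δ := by linarith
    have hsq : ∀ v, ‖((Real.sqrt (μ v / (M + δ)) : ℝ) : 𝕜)‖ ^ 2 = μ v / (M + δ) := by
      intro v
      rw [RCLike.norm_ofReal, sq_abs, Real.sq_sqrt (div_nonneg (hμ v) hMd.le)]
    have h1 := two_summing (ι := t) e g k C hg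
      (fun v => ((Real.sqrt (μ v / (M + δ)) : ℝ) : 𝕜) • (v : E)) (by
        intro j
        have e1 : ∀ v : t, ‖((e (((Real.sqrt (μ v / (M + δ)) : ℝ) : 𝕜) • (v : E))).1 (k + 1) :
            ∀ _ : ℕ, 𝕜) j‖ ^ 2 = (M + δ)⁻¹ * (μ v * ‖((e v).1 (k + 1) : ∀ _ : ℕ, 𝕜) j‖ ^ 2) := by
          intro v
          have : ((e (((Real.sqrt (μ v / (M + δ)) : ℝ) : 𝕜) • (v : E))).1 (k + 1) :
            ∀ _ : ℕ, 𝕜) j = ((Real.sqrt (μ v / (M + δ)) : ℝ) : 𝕜) *
              ((e v).1 (k + 1) : ∀ _ : ℕ, 𝕜) j := by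
            rw [map_smul]; rfl
          rw [this, norm_mul, mul_pow, hsq]
          ring
        simp_rw [e1]
        rw [← Finset.mul_sum, Finset.sum_coe_sort t
          (fun v => μ v * ‖((e v).1 (k + 1) : ∀ _ : ℕ, 𝕜) j‖ ^ 2)]
        rw [inv_mul_le_iff₀ hMd, mul_one]
        exact le_trans (hM j) (by linarith))
    have e2 : ∀ v : t, ‖g (((Real.sqrt (μ v / (M + δ)) : ℝ) : 𝕜) • (v : E))‖ ^ 2 =
        (M + δ)⁻¹ * (μ v * ‖g v‖ ^ 2) := by
      intro v
      rw [map_smul, norm_smul, mul_pow, hsq]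
      ring
    simp_rw [e2] at h1
    rw [← Finset.mul_sum, Finset.sum_coe_sort t (fun v => μ v * ‖g v‖ ^ 2),
      inv_mul_le_iff₀ hMd] at h1
    linarith
  have hC : 0 ≤ C ^ 2 * cst := by positivity
  refine le_of_forall_pos_le_add fun η hη => ?_
  have h1 := key (η / (C ^ 2 * cst + 1)) (by positivity)
  have h2 : (C ^ 2 * cst) * (η / (C ^ 2 * cst + 1)) ≤ η := by
    rw [← mul_div_assoc, div_le_iff₀ (by positivity)]
    nlinarith
  linarith

/-- The main extension lemma. -/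
lemma extension {E : Type u} [AddCommGroup E] [Module 𝕜 E] [TopologicalSpace E]
    {W : Type v} [AddCommGroup W] [Module 𝕜 W] [TopologicalSpace W] [PolynormableSpace 𝕜 W]
    (e : E →ₗ[𝕜] XS 𝕜) (he : IsInducing e) (i : E →ₗ[𝕜] W) (hi : IsEmbedding i)
    (g : E →L[𝕜] lp (fun _ : ℕ => 𝕜) 2) :
    ∃ f : W →L[𝕜] lp (fun _ : ℕ => 𝕜) 2, ∀ x, f (i x) = g x := by
  -- domination of `g`
  have hE : PolynormableSpace 𝕜 E := he.polynormableSpace
  obtain ⟨p₂, hp₂, hgp⟩ := Seminorm.exists_le_comp_of_isInducing (𝕜 := 𝕜)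
    (p := (normSeminorm 𝕜 (lp (fun _ : ℕ => 𝕜) 2)).comp g.toLinearMap)
    (by exact g.continuous.norm) he
  obtain ⟨k, C, hC, hk⟩ := bound_XS p₂ hp₂
  have hg : ∀ x, ‖g.toLinearMap x‖ ≤ C * ‖(e x).1 k‖ := fun x => le_trans (hgp x) (hk (e x))
  have hcst := cst_pos
  set D : ℝ := C ^ 2 * cst + 1 with hD
  have hDpos : 0 < D := by positivity
  obtain ⟨l, hl, hlg⟩ := pietsch (fun x : E => ‖g x‖ ^ 2)
    (fun x j => ‖((e x).1 (k + 1) : ∀ _ : ℕ, 𝕜) j‖ ^ 2) D hDpos (fun _ _ => sq_nonneg _)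
    (fun x => XS_tendsto (e x) (k + 1)) (by
      intro t μ hμ M hM
      have hM0 : 0 ≤ M :=
        le_trans (Finset.sum_nonneg fun v _ => mul_nonneg (hμ v) (sq_nonneg _)) (hM 0)
      refine le_trans (two_summing' e g.toLinearMap k C hg t μ hμ M hM) ?_
      rw [hD]
      nlinarith)
  -- a continuous seminorm on `W`
  obtain ⟨r, hr, hpr⟩ := Seminorm.exists_le_comp_of_isInducing (𝕜 := 𝕜)
    (p := ((normSeminorm 𝕜 (lp (fun _ : ℕ => 𝕜) ∞)).comp
      ((LinearMap.proj (k + 1)).comp ((XS 𝕜).subtype.comp e))))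
    (by
      have h1 : Continuous fun z : XS 𝕜 => ‖z.1 (k + 1)‖ :=
        ((continuous_apply (k + 1)).comp continuous_subtype_val).norm
      exact h1.comp he.continuous) (f := i) hi.isInducing
  have hpr' : ∀ x, ‖(e x).1 (k + 1)‖ ≤ r (i x) := hpr
  -- the functionals
  have hcoord : ∀ j : ℕ, ∃ φ : E →ₗ[𝕜] 𝕜, ∀ x, φ x = ((e x).1 (k + 1) : ∀ _ : ℕ, 𝕜) j := by
    intro j
    refine ⟨{ toFun := fun x => ((e x).1 (k + 1) : ∀ _ : ℕ, 𝕜) j, map_add' := ?_, map_smul' := ?_ },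
      fun x => rfl⟩
    · intro x y
      rw [map_add]; rfl
    · intro c x
      rw [map_smul]; rfl
  choose φ hφ using hcoord
  have hΦ : ∀ j : ℕ, ∃ Φ : StrongDual 𝕜 W, (∀ x : E, Φ (i x) = φ j x) ∧ ∀ x, ‖Φ x‖ ≤ r x := by
    intro j
    have hbij := LinearEquiv.ofInjective i hi.injective
    obtain ⟨G, hG1, hG2⟩ := Module.Dual.exists_continuous_extension_of_le_seminorm
      (LinearMap.range i)
      ((φ j).comp (LinearEquiv.ofInjective i hi.injective).symm.toLinearMap) hr (by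
        intro y
        obtain ⟨x, hx⟩ := (LinearEquiv.ofInjective i hi.injective).surjective y
        rw [← hx]
        simp only [LinearMap.comp_apply, LinearEquiv.coe_coe, LinearEquiv.symm_apply_apply,
          LinearEquiv.ofInjective_apply]
        rw [hφ]
        exact le_trans (lp.norm_apply_le_norm (by simp) _ j) (hpr' x))
    refine ⟨G, fun x => ?_, hG2⟩
    have := hG1 (LinearEquiv.ofInjective i hi.injective x)
    simpa using this
  choose Φ hΦ1 hΦ2 using hΦ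
  -- the map into `ℓ²`
  have hmem : ∀ x : W, Memℓp (fun j => ((Real.sqrt (l j) : ℝ) : 𝕜) * Φ j x) 2 := by
    intro x
    refine memℓp_gen ?_
    refine Summable.of_nonneg_of_le (fun j => by positivity) (fun j => ?_)
      ((subProb_summable hl).mul_right (r x ^ 2))
    simp only [ENNReal.toReal_ofNat, Real.rpow_ofNat]
    rw [norm_mul, mul_pow, RCLike.norm_ofReal, sq_abs, Real.sq_sqrt (hl.1 j)]
    have h1 := hΦ2 j x
    have h2 := hl.1 j
    gcongr
  let J : W →ₗ[𝕜] lp (fun _ : ℕ => 𝕜) 2 :=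
    { toFun := fun x => ⟨fun j => ((Real.sqrt (l j) : ℝ) : 𝕜) * Φ j x, hmem x⟩
      map_add' := by
        intro x y; ext j
        change ((Real.sqrt (l j) : ℝ) : 𝕜) * Φ j (x + y) =
          ((Real.sqrt (l j) : ℝ) : 𝕜) * Φ j x + ((Real.sqrt (l j) : ℝ) : 𝕜) * Φ j y
        rw [map_add, mul_add]
      map_smul' := by
        intro c x; ext j
        simp only [map_smul, smul_eq_mul, RingHom.id_apply, lp.coeFn_smul, Pi.smul_apply]
        ring }
  have hJ_apply : ∀ x j, (J x : ∀ _ : ℕ, 𝕜) j = ((Real.sqrt (l j) : ℝ) : 𝕜) * Φ j x :=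
    fun _ _ => rfl
  have hJsq : ∀ x, ‖J x‖ ^ 2 = ∑' j, l j * ‖Φ j x‖ ^ 2 := by
    intro x
    have h1 := lp.norm_rpow_eq_tsum (p := 2) (by simp) (J x)
    simp only [ENNReal.toReal_ofNat, Real.rpow_ofNat] at h1
    rw [h1]
    refine tsum_congr fun j => ?_
    rw [hJ_apply, norm_mul, mul_pow, RCLike.norm_ofReal, sq_abs, Real.sq_sqrt (hl.1 j)]
  have hJr : ∀ x, ‖J x‖ ≤ r x := by
    intro x
    have h0 : 0 ≤ r x := apply_nonneg r x
    refine (pow_le_pow_iff_left₀ (norm_nonneg _) h0 (by norm_num : (2:ℕ) ≠ 0)).mp ?_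
    rw [hJsq]
    have h1 : ∑' j, l j * ‖Φ j x‖ ^ 2 ≤ ∑' j, l j * r x ^ 2 := by
      have hs2 := (subProb_summable hl).mul_right (r x ^ 2)
      have hle : ∀ j, l j * ‖Φ j x‖ ^ 2 ≤ l j * r x ^ 2 := by
        intro j
        have h1 := hΦ2 j x
        have h2 := hl.1 j
        gcongr
      exact (Summable.of_nonneg_of_le (fun j => mul_nonneg (hl.1 j) (sq_nonneg _)) hle
        hs2).tsum_le_tsum hle hs2
    rw [tsum_mul_right] at h1
    have h2 := subProb_tsum_le hl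
    nlinarith [sq_nonneg (r x)]
  have hJcont : Continuous J := by
    refine (PolynormableSpace.withSeminorms 𝕜 W).continuous_normedSpace_rng _ J ?_
    refine ⟨{⟨r, hr⟩}, 1, ?_⟩
    intro x
    simpa using hJr x
  let Jc : W →L[𝕜] lp (fun _ : ℕ => 𝕜) 2 := ⟨J, hJcont⟩
  -- the closure of the range
  set R : Submodule 𝕜 (lp (fun _ : ℕ => 𝕜) 2) := (LinearMap.range (J.comp i)).topologicalClosure
    with hR
  have hmemR : ∀ x, (J.comp i) x ∈ R := fun x =>
    Submodule.le_topologicalClosure _ (LinearMap.mem_range_self _ x)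
  let T : E →ₗ[𝕜] R := (J.comp i).codRestrict R hmemR
  have hTdense : DenseRange T := by
    intro y
    have hy : (y : lp (fun _ : ℕ => 𝕜) 2) ∈ closure (Set.range (J.comp i)) := by
      have h1 : (y : lp (fun _ : ℕ => 𝕜) 2) ∈ (R : Set (lp (fun _ : ℕ => 𝕜) 2)) := y.2
      have h2 : (R : Set (lp (fun _ : ℕ => 𝕜) 2)) = closure (Set.range (J.comp i)) := by
        rw [hR, Submodule.topologicalClosure_coe, LinearMap.coe_range]
      rw [h2] at h1
      exact h1
    rw [closure_subtype]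
    convert hy using 2
    ext z
    constructor
    · rintro ⟨_, ⟨x, rfl⟩, rfl⟩
      exact ⟨x, rfl⟩
    · rintro ⟨x, rfl⟩
      exact ⟨T x, ⟨x, rfl⟩, rfl⟩
  have hTnorm : ∀ x, ‖g.toLinearMap x‖ ≤ Real.sqrt D * ‖T x‖ := by
    intro x
    have h1 : ‖T x‖ = ‖J (i x)‖ := rfl
    rw [h1]
    refine (pow_le_pow_iff_left₀ (norm_nonneg _) (by positivity) (by norm_num : (2:ℕ) ≠ 0)).mp ?_
    rw [mul_pow, Real.sq_sqrt hDpos.le, hJsq]
    have h2 := hlg x
    simp only at h2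
    have h3 : ∀ j, l j * ‖((e x).1 (k + 1) : ∀ _ : ℕ, 𝕜) j‖ ^ 2 = l j * ‖Φ j (i x)‖ ^ 2 := by
      intro j
      rw [hΦ1, hφ]
    simp_rw [h3] at h2
    exact h2
  have hRcomplete : CompleteSpace R := by rw [hR]; infer_instance
  refine ⟨((g.toLinearMap.extendOfNorm T).comp R.orthogonalProjectionOnto).comp Jc, fun x => ?_⟩
  have h1 : R.orthogonalProjectionOnto (Jc (i x)) = T x := by
    exact Submodule.orthogonalProjectionOnto_mem_subspace_eq_self (K := R) (T x)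
  have h2 := LinearMap.extendOfNorm_eq (f := g.toLinearMap) (e := T) hTdense ⟨_, hTnorm⟩ x
  simp only [ContinuousLinearMap.comp_apply]
  rw [h1, h2]
  rfl

end


section
variable {𝕜 : Type} [RCLike 𝕜]

lemma isFrechetSpace_XS : IsFrechetSpace 𝕜 (XS 𝕜) := by
  refine ⟨(XS 𝕜).toAddSubgroup.isUniformAddGroup, inferInstance, inferInstance, ?_, ?_⟩
  · exact isClosed_XS.completeSpace_coe
  · exact (IsEmbedding.subtypeVal (X := ℕ → lp (fun _ : ℕ => 𝕜) ∞)
      (p := fun x => x ∈ XS 𝕜)).metrizableSpace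

lemma hasPropertySpade_XS : HasPropertySpade.{0, v} 𝕜 (XS 𝕜) := by
  refine ⟨fun Y g => ?_, ?_⟩
  · exact extension (E := Y) (W := XS 𝕜) Y.subtype IsInducing.subtypeVal Y.subtype
      IsEmbedding.subtypeVal g
  · intro W _ _ _ hW i hi g
    obtain ⟨_, _, h3, _, _⟩ := hW
    exact extension LinearMap.id IsInducing.id i hi g

section nuclear

/-- The canonical map into the completion, as a linear map. -/
noncomputable def toCompl (E : Type u) [SeminormedAddCommGroup E] [NormedSpace 𝕜 E] :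
    E →ₗ[𝕜] UniformSpace.Completion E where
  toFun x := (x : UniformSpace.Completion E)
  map_add' x y := UniformSpace.Completion.coe_add x y
  map_smul' c x := UniformSpace.Completion.coe_smul c x

/-- Consequence of nuclearity: absolute convergence of `∑ δ_j (φ u_j)`. -/
lemma nuclear_conseq {E F : Type u} [SeminormedAddCommGroup E] [NormedSpace 𝕜 E]
    [SeminormedAddCommGroup F] [NormedSpace 𝕜 F] (φ : E → F)
    (h : InducesNuclear (𝕜 := 𝕜) φ) (C : ℝ) (u : ℕ → E)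
    (hu : ∀ (J : Finset ℕ) (θ : ℕ → 𝕜), (∀ j, ‖θ j‖ ≤ 1) → ‖∑ j ∈ J, θ j • u j‖ ≤ C)
    (δ : ℕ → (F →ₗ[𝕜] 𝕜)) (hδ : ∀ j x, ‖δ j x‖ ≤ ‖x‖) (a : ℕ → ℝ) (ha : ∀ j, 0 ≤ a j)
    (hδa : ∀ j, δ j (φ (u j)) = ((a j : ℝ) : 𝕜)) : Summable a := by
  obtain ⟨T, hT, ξ, y, hs, hTs⟩ := h
  -- extension of the functionals `δ j` to the completion of `F`
  have hdense : DenseRange (toCompl (𝕜 := 𝕜) F) := UniformSpace.Completion.denseRange_coe
  have hδb : ∀ j x, ‖δ j x‖ ≤ 1 * ‖toCompl (𝕜 := 𝕜) F x‖ := by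
    intro j x
    have h1 : ‖toCompl (𝕜 := 𝕜) F x‖ = ‖x‖ := UniformSpace.Completion.norm_coe x
    rw [one_mul, h1]
    exact hδ j x
  obtain ⟨Δ, hΔ⟩ : ∃ Δ : ℕ → (UniformSpace.Completion F →L[𝕜] 𝕜),
      ∀ j, Δ j = (δ j).extendOfNorm (toCompl (𝕜 := 𝕜) F) := ⟨_, fun _ => rfl⟩
  have hΔ1 : ∀ j (x : F), Δ j (x : UniformSpace.Completion F) = δ j x := by
    intro j x
    rw [hΔ]
    exact LinearMap.extendOfNorm_eq hdense ⟨1, hδb j⟩ x
  have hΔ2 : ∀ j z, ‖Δ j z‖ ≤ ‖z‖ := by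
    intro j z
    have := LinearMap.norm_extendOfNorm_apply_le hdense 1 (hδb j) z
    rwa [one_mul, ← hΔ] at this
  have hξ : ∀ (n : ℕ) (J : Finset ℕ),
      ∑ j ∈ J, ‖ξ n (u j : UniformSpace.Completion E)‖ ≤ C * ‖ξ n‖ := by
    intro n J
    -- unimodular factors
    have hθ : ∀ z : 𝕜, ∃ t : 𝕜, ‖t‖ ≤ 1 ∧ t * z = ((‖z‖ : ℝ) : 𝕜) := by
      intro z
      by_cases hz : z = 0
      · exact ⟨0, by simp, by simp [hz]⟩
      · refine ⟨((‖z‖ : ℝ) : 𝕜) / z, ?_, ?_⟩
        · rw [norm_div, RCLike.norm_ofReal, abs_norm, div_self (norm_ne_zero_iff.2 hz)]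
        · rw [div_mul_cancel₀ _ hz]
    have hθ' : ∀ j : ℕ, ∃ t : 𝕜, ‖t‖ ≤ 1 ∧ t * ξ n (u j : UniformSpace.Completion E) =
      ((‖ξ n (u j : UniformSpace.Completion E)‖ : ℝ) : 𝕜) := fun j => hθ _
    choose θ hθ1 hθ2 using hθ'
    have e1 : ((∑ j ∈ J, ‖ξ n (u j : UniformSpace.Completion E)‖ : ℝ) : 𝕜) =
        ξ n (toCompl (𝕜 := 𝕜) E (∑ j ∈ J, θ j • u j)) := by
      rw [map_sum, map_sum, RCLike.ofReal_sum]
      refine Finset.sum_congr rfl fun j _ => ?_
      rw [map_smul, map_smul, smul_eq_mul, ← hθ2]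
      rfl
    have e2 : ∑ j ∈ J, ‖ξ n (u j : UniformSpace.Completion E)‖ =
        ‖((∑ j ∈ J, ‖ξ n (u j : UniformSpace.Completion E)‖ : ℝ) : 𝕜)‖ := by
      rw [RCLike.norm_ofReal, abs_of_nonneg (Finset.sum_nonneg fun _ _ => norm_nonneg _)]
    have h1 : ‖toCompl (𝕜 := 𝕜) E (∑ j ∈ J, θ j • u j)‖ = ‖∑ j ∈ J, θ j • u j‖ :=
      UniformSpace.Completion.norm_coe _
    rw [e2, e1]
    refine le_trans ((ξ n).le_opNorm _) ?_
    rw [h1, mul_comm]
    exact mul_le_mul_of_nonneg_right (hu J θ hθ1) (norm_nonneg _)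
  have hbound : ∀ J : Finset ℕ, ∑ j ∈ J, a j ≤ C * ∑' n, ‖ξ n‖ * ‖y n‖ := by
    intro J
    have h1 : ∀ j, HasSum (fun n => ξ n (u j : UniformSpace.Completion E) * Δ j (y n))
        ((a j : ℝ) : 𝕜) := by
      intro j
      have h2 := (hTs (u j : UniformSpace.Completion E)).mapL (Δ j)
      rw [hT, hΔ1, hδa] at h2
      simpa using h2
    have h2 : HasSum (fun n => ∑ j ∈ J, ξ n (u j : UniformSpace.Completion E) * Δ j (y n))
        (∑ j ∈ J, ((a j : ℝ) : 𝕜)) := hasSum_sum fun j _ => h1 j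
    have h3 : ∀ n, ‖∑ j ∈ J, ξ n (u j : UniformSpace.Completion E) * Δ j (y n)‖ ≤
        C * (‖ξ n‖ * ‖y n‖) := by
      intro n
      refine le_trans (norm_sum_le _ _) ?_
      have h4 : ∀ j ∈ J, ‖ξ n (u j : UniformSpace.Completion E) * Δ j (y n)‖ ≤
          ‖ξ n (u j : UniformSpace.Completion E)‖ * ‖y n‖ := by
        intro j _
        rw [norm_mul]
        exact mul_le_mul_of_nonneg_left (hΔ2 j (y n)) (norm_nonneg _)
      refine le_trans (Finset.sum_le_sum h4) ?_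
      rw [← Finset.sum_mul, ← mul_assoc]
      exact mul_le_mul_of_nonneg_right (hξ n J) (norm_nonneg _)
    have h4 : ∑ j ∈ J, a j = ‖∑ j ∈ J, ((a j : ℝ) : 𝕜)‖ := by
      rw [← RCLike.ofReal_sum, RCLike.norm_ofReal, abs_of_nonneg]
      exact Finset.sum_nonneg fun j _ => ha j
    rw [h4, ← h2.tsum_eq, ← tsum_mul_left]
    exact tsum_of_norm_bounded (hs.mul_left C).hasSum h3
  exact summable_of_sum_le ha hbound

end nuclear

/-- `∑_{j ∈ J} θ_j w_j^{-m} e_j` as an element of `XS`. -/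
noncomputable def comb (J : Finset ℕ) (m : ℕ) (θ : ℕ → 𝕜) : XS 𝕜 :=
  ⟨fun k => ∑ j ∈ J, lp.single (E := fun _ : ℕ => 𝕜) ∞ j (((w j ^ k * (w j ^ m)⁻¹ : ℝ) : 𝕜) * θ j), by
    intro k i
    rw [lp.coeFn_sum, lp.coeFn_sum, Finset.sum_apply, Finset.sum_apply, Finset.mul_sum]
    refine Finset.sum_congr rfl fun j _ => ?_
    rw [lp.coeFn_single, lp.coeFn_single]
    by_cases h : i = j
    · subst h
      simp
      ring
    · simp [Pi.single_eq_of_ne h]⟩

lemma comb_apply (J : Finset ℕ) (m : ℕ) (θ : ℕ → 𝕜) (k i : ℕ) :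
    ((comb J m θ).1 k : ∀ _ : ℕ, 𝕜) i =
      if i ∈ J then ((w i ^ k * (w i ^ m)⁻¹ : ℝ) : 𝕜) * θ i else 0 := by
  change ((∑ j ∈ J, lp.single (E := fun _ : ℕ => 𝕜) ∞ j
    (((w j ^ k * (w j ^ m)⁻¹ : ℝ) : 𝕜) * θ j) : lp (fun _ : ℕ => 𝕜) ∞) : ∀ _ : ℕ, 𝕜) i = _
  rw [lp.coeFn_sum, Finset.sum_apply]
  simp_rw [lp.coeFn_single, Pi.single_apply]
  rw [Finset.sum_ite_eq]

lemma norm_comb_le (J : Finset ℕ) (m : ℕ) (θ : ℕ → 𝕜) (hθ : ∀ j, ‖θ j‖ ≤ 1) :
    ‖(comb J m θ).1 m‖ ≤ 1 := by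
  refine lp.norm_le_of_forall_le zero_le_one fun i => ?_
  rw [comb_apply]
  split_ifs
  · rw [mul_inv_cancel₀ (pow_pos (w_pos i) m).ne']
    simpa using hθ i
  · simp

lemma comb_eq_sum (J : Finset ℕ) (m : ℕ) (θ : ℕ → 𝕜) :
    comb J m θ = ∑ j ∈ J, θ j • comb {j} m (fun _ => (1 : 𝕜)) := by
  refine Subtype.ext (funext fun k => ?_)
  have h1 : (∑ j ∈ J, θ j • comb {j} m (fun _ => (1 : 𝕜)) : XS 𝕜).1 k =
      ∑ j ∈ J, θ j • (comb {j} m (fun _ => (1 : 𝕜))).1 k := by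
    rw [AddSubmonoidClass.coe_finsetSum, Finset.sum_apply]
    rfl
  rw [h1]
  ext i
  rw [comb_apply, lp.coeFn_sum, Finset.sum_apply]
  have h2 : ∀ j, (θ j • (comb {j} m (fun _ => (1 : 𝕜))).1 k : ∀ _ : ℕ, 𝕜) i =
      if i = j then ((w i ^ k * (w i ^ m)⁻¹ : ℝ) : 𝕜) * θ i else 0 := by
    intro j
    change θ j * ((comb {j} m (fun _ => (1 : 𝕜))).1 k : ∀ _ : ℕ, 𝕜) i = _
    rw [comb_apply]
    by_cases h : i = j
    · subst h; simp [mul_comm]
    · simp [h]
  have h3 : ∀ j, ((θ j • (comb {j} m (fun _ => (1 : 𝕜))).1 k : lp (fun _ : ℕ => 𝕜) ∞) :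
      ∀ _ : ℕ, 𝕜) i = if i = j then ((w i ^ k * (w i ^ m)⁻¹ : ℝ) : 𝕜) * θ i else 0 := h2
  simp_rw [h3]
  rw [Finset.sum_ite_eq]

lemma not_isNuclearSpace_XS : ¬ IsNuclearSpace 𝕜 (XS 𝕜) := by
  intro hN
  -- the seminorm `p₀`
  obtain ⟨p, hp⟩ : ∃ p : Seminorm 𝕜 (XS 𝕜), p = (normSeminorm 𝕜 (lp (fun _ : ℕ => 𝕜) ∞)).comp
    ((LinearMap.proj 0).comp (XS 𝕜).subtype) := ⟨_, rfl⟩
  have hp_apply : ∀ z, p z = ‖z.1 0‖ := fun _ => by rw [hp]; rfl
  have hpc : Continuous p := by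
    have h1 : Continuous fun z : XS 𝕜 => ‖z.1 0‖ :=
      ((continuous_apply 0).comp continuous_subtype_val).norm
    have h2 : (p : XS 𝕜 → ℝ) = fun z : XS 𝕜 => ‖z.1 0‖ := funext hp_apply
    rw [h2]
    exact h1
  obtain ⟨q, hq, -, hqp⟩ := hN p hpc
  obtain ⟨m, C, hC, hm⟩ := bound_XS q hq
  have hcoord : ∀ j : ℕ, ∃ φ : XS 𝕜 →ₗ[𝕜] 𝕜, ∀ x, φ x = (x.1 0 : ∀ _ : ℕ, 𝕜) j := by
    intro j
    refine ⟨{ toFun := fun x => (x.1 0 : ∀ _ : ℕ, 𝕜) j, map_add' := ?_, map_smul' := ?_ },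
      fun x => rfl⟩
    · intro x y; rfl
    · intro c x; rfl
  choose φ hφ using hcoord
  have hφb : ∀ j x, ‖φ j x‖ ≤ p x := by
    intro j x
    rw [hp_apply, hφ]
    exact lp.norm_apply_le_norm (by simp) _ j
  refine not_summable_w m (@nuclear_conseq 𝕜 _ (XS 𝕜) (XS 𝕜) q.toSeminormedAddCommGroup
    (seminormedSpace q) p.toSeminormedAddCommGroup (seminormedSpace p) id hqp C
    (fun j => comb {j} m (fun _ => (1 : 𝕜))) ?_ φ hφb (fun j => (w j ^ m)⁻¹) ?_ ?_)
  · intro J θ hθ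
    have h1 : q (comb J m θ) ≤ C := by
      refine le_trans (hm _) ?_
      have := norm_comb_le J m θ hθ
      nlinarith
    rw [comb_eq_sum] at h1
    exact h1
  · exact fun j => (inv_pos.2 (pow_pos (w_pos j) m)).le
  · intro j
    have h1 : φ j (comb {j} m (fun _ => (1 : 𝕜))) = (((w j ^ m)⁻¹ : ℝ) : 𝕜) := by
      rw [hφ, comb_apply]
      simp
    exact h1

end

/-- Over `𝕜 = ℝ` or `ℂ` there is a Fréchet space `X` with property spade which is not nuclear.
(The superspaces in property spade range over an arbitrary universe `v`.) -/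
theorem result (𝕜 : Type) [RCLike 𝕜] :
    ∃ (X : Type) (_ : AddCommGroup X) (_ : Module 𝕜 X) (_ : UniformSpace X),
      IsFrechetSpace 𝕜 X ∧ HasPropertySpade.{0, v} 𝕜 X ∧ ¬ IsNuclearSpace 𝕜 X :=
  ⟨XS 𝕜, inferInstance, inferInstance, inferInstance, isFrechetSpace_XS, hasPropertySpade_XS,
    not_isNuclearSpace_XS⟩

end Pool.Agent.Results.MP_e22ce5_an.NonNuclearSpade
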